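import Pool.Agent.H72.EQQ.Targets2
import Pool.Agent.H82.EQ.VS

/-!
# The volume between two cones
-/

set_option autoImplicit false

open MeasureTheory Pool.Agent.H72.EQQ Pool.Agent.H71.EQ
open Pool.Agent.H82.EQ (pz hz pz_smul hz_smul vol_smul pz_nonneg)

namespace Pool.Agent.H87.EQQ

theorem pf_CSL (h1 : T_HSL) : T_CSL := by
  intro k hk
  obtain ⟨C, hC, h⟩ := h1 k hk
  refine ⟨C, hC, fun a b ha hab => ?_⟩
  have hb : 0 < b := ha.trans hab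
  have hA : 0 < a ^ (k + 1) := pow_pos ha _
  have hB : 0 < b ^ (k + 1) := pow_pos hb _
  have hAB : a ^ (k + 1) < b ^ (k + 1) := pow_lt_pow_left₀ hab ha.le (by omega)
  have hδ : 0 < (a ^ (k + 1))⁻¹ - (b ^ (k + 1))⁻¹ := sub_pos.2 (inv_strictAnti₀ hA hAB)
  have hk1 : ((k : ℝ) + 1) ≠ 0 := by positivity
  have hnu : nu k * ((k + 1 : ℕ) : ℝ) = 1 := by
    unfold nu
    push_cast
    field_simp
  have hnu0 : 0 ≤ nu k := by
    unfold nu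
    positivity
  have hsub : {z : Fin k → ℝ | pz z ≤ 1 ∧ a * pz z ^ nu k < hz z ∧ hz z ≤ b * pz z ^ nu k} ⊆
      {z : Fin k → ℝ | b⁻¹ • z ∈ {z : Fin k → ℝ | hz z ≤ 1 ∧
        |pz z - (b ^ (k + 1))⁻¹ * hz z ^ (k + 1)| ≤ (a ^ (k + 1))⁻¹ - (b ^ (k + 1))⁻¹}} := by
    rintro z ⟨hz1, hz2, hz3⟩
    have hp0 : 0 ≤ pz z := pz_nonneg z
    have e : (pz z ^ nu k) ^ (k + 1) = pz z := by
      rw [← Real.rpow_natCast, ← Real.rpow_mul hp0, hnu, Real.rpow_one]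
    have hq0 : 0 ≤ pz z ^ nu k := Real.rpow_nonneg hp0 _
    have hq1 : pz z ^ nu k ≤ 1 := Real.rpow_le_one hp0 hz1 hnu0
    have hH0 : 0 ≤ hz z := (mul_nonneg ha.le hq0).trans hz2.le
    have g1 : a ^ (k + 1) * pz z < hz z ^ (k + 1) := by
      have := pow_lt_pow_left₀ hz2 (mul_nonneg ha.le hq0) (Nat.succ_ne_zero k)
      rwa [mul_pow, e] at this
    have g2 : hz z ^ (k + 1) ≤ b ^ (k + 1) * pz z := by
      have := pow_le_pow_left₀ hH0 hz3 (k + 1)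
      rwa [mul_pow, e] at this
    show hz (b⁻¹ • z) ≤ 1 ∧ |pz (b⁻¹ • z) - (b ^ (k + 1))⁻¹ * hz (b⁻¹ • z) ^ (k + 1)| ≤
      (a ^ (k + 1))⁻¹ - (b ^ (k + 1))⁻¹
    rw [hz_smul (inv_nonneg.2 hb.le), pz_smul (inv_nonneg.2 hb.le)]
    have g3 : b⁻¹ * hz z ≤ 1 := by
      rw [inv_mul_le_iff₀ hb, mul_one]
      exact hz3.trans (mul_le_of_le_one_right hb.le hq1)
    refine ⟨g3, ?_⟩
    have g4 : (b⁻¹ * hz z) ^ (k + 1) ≤ 1 := pow_le_one₀ (mul_nonneg (inv_nonneg.2 hb.le) hH0) g3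
    rw [mul_pow, inv_pow] at g4 ⊢
    generalize a ^ (k + 1) = A at *
    generalize b ^ (k + 1) = B at *
    generalize hz z ^ (k + 1) = H at *
    generalize pz z = P at *
    have g5 : B⁻¹ * P ≤ A⁻¹ * (B⁻¹ * H) := by
      have : P ≤ A⁻¹ * H := by
        rw [← div_eq_inv_mul, le_div_iff₀ hA]
        linarith
      calc B⁻¹ * P ≤ B⁻¹ * (A⁻¹ * H) := mul_le_mul_of_nonneg_left this (inv_nonneg.2 hB.le)
        _ = A⁻¹ * (B⁻¹ * H) := by ring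
    have g6 : B⁻¹ * H ≤ P := by
      rw [inv_mul_le_iff₀ hB]
      exact g2
    have g7 : B⁻¹ * (B⁻¹ * H) ≤ B⁻¹ * P := mul_le_mul_of_nonneg_left g6 (inv_nonneg.2 hB.le)
    rw [abs_of_nonneg (sub_nonneg.2 g7)]
    have g8 : (A⁻¹ - B⁻¹) * (B⁻¹ * H) ≤ A⁻¹ - B⁻¹ := mul_le_of_le_one_right hδ.le g4
    nlinarith [g5, g8]
  calc volume {z : Fin k → ℝ | pz z ≤ 1 ∧ a * pz z ^ nu k < hz z ∧ hz z ≤ b * pz z ^ nu k}
      ≤ _ := measure_mono hsub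
    _ = ENNReal.ofReal (b ^ k) * volume _ := vol_smul hb _
    _ ≤ ENNReal.ofReal (b ^ k) * ENNReal.ofReal (C * Real.sqrt ((a ^ (k + 1))⁻¹ -
        (b ^ (k + 1))⁻¹)) := by
        gcongr
        exact h _ _ hδ
    _ = ENNReal.ofReal (C * b ^ k * Real.sqrt ((a ^ (k + 1))⁻¹ - (b ^ (k + 1))⁻¹)) := by
        rw [← ENNReal.ofReal_mul (pow_nonneg hb.le _)]
        congr 1
        ring

end Pool.Agent.H87.EQQ
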