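import Pool.Agent.H72.EQQ.Targets3
import Pool.Agent.H17.EQQ.MUHA

/-!
# The volume of a layer of the norm, for given excess
-/

set_option autoImplicit false

open MeasureTheory Pool.Agent.H72.EQQ Pool.Agent.H71.EQ
open Pool.Agent.H82.EQ (pz hz)

namespace Pool.Agent.H87.EQQ

theorem pow_sub_le {u v : ℝ} (hv : 0 ≤ v) (huv : v ≤ u) (hu : u ≤ 2) :
    ∀ n : ℕ, u ^ n - v ^ n ≤ n * 2 ^ n * (u - v)
  | 0 => by simp
  | n + 1 => by
      have ih := pow_sub_le hv huv hu n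
      have h1 : v ^ n ≤ 2 ^ n := pow_le_pow_left₀ hv (huv.trans hu) n
      have h2 : 0 ≤ u - v := sub_nonneg.2 huv
      have h3 : 0 ≤ u := hv.trans huv
      have h4 : u * (u ^ n - v ^ n) ≤ 2 * (n * 2 ^ n * (u - v)) := by
        have h5 : 0 ≤ u ^ n - v ^ n := sub_nonneg.2 (pow_le_pow_left₀ hv huv n)
        exact mul_le_mul hu ih h5 (by norm_num)
      have h5 : v ^ n * (u - v) ≤ 2 ^ n * (u - v) := mul_le_mul_of_nonneg_right h1 h2
      have h6 : 0 ≤ 2 ^ n * (u - v) := mul_nonneg (by positivity) h2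
      have e : u ^ (n + 1) - v ^ (n + 1) = u * (u ^ n - v ^ n) + v ^ n * (u - v) := by ring
      rw [e, pow_succ]
      push_cast
      nlinarith

theorem pf_LYE (h1 : T_CSL) : T_LYE := by
  intro k hk
  obtain ⟨C, hC, h⟩ := h1 k hk
  refine ⟨C * Real.sqrt (((k + 1 : ℕ) : ℝ) * 2 ^ (k + 1) * 4), by positivity,
    fun E t s hE ht hs hs1 => ?_⟩
  obtain ⟨n0, -, n1⟩ := muh_nu hk
  have hE1 : (1 : ℝ) ≤ E := by exact_mod_cast hE
  have hE0 : (0 : ℝ) < E := by linarith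
  have ht0 : 0 < t := by linarith
  set e : ℝ := (E : ℝ) ^ (-nu k) with he
  have he0 : 0 < e := Real.rpow_pos_of_pos hE0 _
  have he1 : e ≤ 1 := Real.rpow_le_one_of_one_le_of_nonpos hE1 (by linarith)
  have hen : e ^ (k + 1) = (E : ℝ)⁻¹ := by
    rw [he, ← Real.rpow_natCast, ← Real.rpow_mul hE0.le]
    have : -nu k * ((k + 1 : ℕ) : ℝ) = -1 := by
      push_cast
      linarith
    rw [this, Real.rpow_neg_one]
  have hEe : (E : ℝ) ^ nu k * e = 1 := by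
    rw [he, ← Real.rpow_add hE0, add_neg_cancel, Real.rpow_zero]
  have hsub : {z : Fin k → ℝ | PR z ≤ 1 ∧ t < ‖arg E z‖ ∧ ‖arg E z‖ ≤ t + s} ⊆
      {z : Fin k → ℝ | pz z ≤ 1 ∧ (t * e) * pz z ^ nu k < hz z ∧
        hz z ≤ ((t + s) * e) * pz z ^ nu k} := by
    rintro z ⟨g1, g2, g3⟩
    rw [muh_norm, muh_pz] at g2 g3
    rw [muh_pz] at g1
    have hp0 : 0 ≤ pz z := abs_nonneg _
    rcases hp0.eq_or_lt with hp | hp
    · rw [← hp, Real.zero_rpow (by linarith), mul_zero, zero_mul] at g2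
      linarith
    have hq : 0 < pz z ^ nu k := Real.rpow_pos_of_pos hp _
    have hE' : (0 : ℝ) < (E : ℝ) ^ nu k := Real.rpow_pos_of_pos hE0 _
    have e1 : hz z = ((E : ℝ) ^ nu k * pz z ^ (-nu k) * hz z) * (e * pz z ^ nu k) := by
      have h2 : pz z ^ (-nu k) * pz z ^ nu k = 1 := by
        rw [← Real.rpow_add hp, neg_add_cancel, Real.rpow_zero]
      calc hz z = ((E : ℝ) ^ nu k * e) * (pz z ^ (-nu k) * pz z ^ nu k) * hz z := by
            rw [hEe, h2, one_mul, one_mul]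
        _ = _ := by ring
    have hep : 0 < e * pz z ^ nu k := mul_pos he0 hq
    refine ⟨g1, ?_, ?_⟩
    · rw [e1, mul_assoc t]
      exact mul_lt_mul_of_pos_right g2 hep
    · rw [mul_assoc (t + s)]
      conv_lhs => rw [e1]
      exact mul_le_mul_of_nonneg_right g3 hep.le
  have ha : 0 < t * e := mul_pos ht0 he0
  have hab : t * e < (t + s) * e := mul_lt_mul_of_pos_right (by linarith) he0
  have h2 := h (t * e) ((t + s) * e) ha hab
  refine (measure_mono hsub).trans (h2.trans (ENNReal.ofReal_le_ofReal ?_))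
  have h3 : ((t + s) * e) ^ k ≤ (t + 1) ^ k := by
    refine pow_le_pow_left₀ (by positivity) ?_ k
    calc (t + s) * e ≤ (t + s) * 1 := mul_le_mul_of_nonneg_left he1 (by linarith)
      _ ≤ t + 1 := by linarith
  have h4 : ((t * e) ^ (k + 1))⁻¹ - (((t + s) * e) ^ (k + 1))⁻¹ ≤
      (((k + 1 : ℕ) : ℝ) * 2 ^ (k + 1) * 4) * (E * s) := by
    rw [mul_pow, mul_pow, hen, mul_inv, mul_inv, inv_inv, ← sub_mul, ← inv_pow, ← inv_pow]
    have hu : t⁻¹ ≤ 2 := by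
      rw [inv_le_comm₀ ht0 (by norm_num)]
      linarith
    have hv : (t + s)⁻¹ ≤ t⁻¹ := inv_anti₀ ht0 (by linarith)
    have h5 := pow_sub_le (inv_nonneg.2 (by linarith)) hv hu (k + 1)
    have h6 : t⁻¹ - (t + s)⁻¹ ≤ 4 * s := by
      have hts : 0 < t + s := by linarith
      have e2 : t⁻¹ - (t + s)⁻¹ = s * (t⁻¹ * (t + s)⁻¹) := by
        field_simp
        ring
      rw [e2]
      have h7 : t⁻¹ * (t + s)⁻¹ ≤ 2 * 2 :=
        mul_le_mul hu (hv.trans hu) (inv_nonneg.2 hts.le) (by norm_num)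
      nlinarith
    have h8 : (((k + 1 : ℕ) : ℝ) * 2 ^ (k + 1)) * (t⁻¹ - (t + s)⁻¹) ≤
        (((k + 1 : ℕ) : ℝ) * 2 ^ (k + 1)) * (4 * s) :=
      mul_le_mul_of_nonneg_left h6 (by positivity)
    calc (t⁻¹ ^ (k + 1) - (t + s)⁻¹ ^ (k + 1)) * E
        ≤ ((((k + 1 : ℕ) : ℝ) * 2 ^ (k + 1)) * (4 * s)) * E :=
          mul_le_mul_of_nonneg_right (h5.trans h8) hE0.le
      _ = _ := by ring
  calc C * ((t + s) * e) ^ k * Real.sqrt (((t * e) ^ (k + 1))⁻¹ - (((t + s) * e) ^ (k + 1))⁻¹)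
      ≤ C * (t + 1) ^ k * Real.sqrt ((((k + 1 : ℕ) : ℝ) * 2 ^ (k + 1) * 4) * (E * s)) := by
        gcongr
    _ = C * Real.sqrt (((k + 1 : ℕ) : ℝ) * 2 ^ (k + 1) * 4) * (t + 1) ^ k *
        Real.sqrt (E * s) := by
        rw [Real.sqrt_mul (by positivity)]
        ring

end Pool.Agent.H87.EQQ
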